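import Pool.Agent.W989.FT.Main

/-!
# Total flow time under an energy budget is hard for every power function

We show that, for every constant `α > 1`, minimizing the total flow time of jobs with arbitrary
works on a speed-scalable processor with power function `s ^ α`, under an energy budget, has no
efficient algorithm unless `P = NP`.  This holds in the approximate sense of the problem: an
algorithm which outputs, in time polynomial in the input size and in `k`, a schedule with energy
at most `E` whose total flow time is at most `2 ^ (-k)` more than the least one gives `P = NP`.
It is enough that the algorithm outputs the order in which the jobs are completed in such a
schedule, whatever way it uses to describe the speeds.

The proof is a reduction from the problem of subset sums.  Each number gives a gadget of two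
jobs, far away from the other ones.  In a gadget the small job is released while the large one
is processed, and the two ways to order the jobs are equally good at one price of the energy.
The budget is calibrated with queries to the algorithm.
-/

namespace Pool.Agent.Results.MP_04f351_lc.NPHardEnergyBudget

open Pool.Agent.NPC Pool.Agent.W989.FT

/-- For every `α > 1`: if near-optimal schedules for total flow time under an energy budget, or
only the orders of the completions in such schedules, are computed in polynomial time, then
`P = NP`. -/
theorem result (α : ℝ) (hα : 1 < α) (h : ComputesSchedules α ∨ ComputesOrders α) :
    ∀ L : Set (List Bool), InNP L → InP L :=
  main hα h

end Pool.Agent.Results.MP_04f351_lc.NPHardEnergyBudget
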